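import Mathlib
import Pool.Agent.Lib.H80Pseudo.Top
import Pool.Agent.Lib.H8Q.M0

/-!
# H43P, part D (numbers): definitions

Everything happens inside one abelian topological group `G`.  A *core* of `G` is the intersection
`hW.core` of a chain `W` of neighbourhoods of zero (see `H80Pseudo.Chain`).  `ODense` and `mulG` are
those of `H8Q.M0`.
-/

open Set Filter Topology Cardinal

universe u

namespace Pool.Agent.Lib.H43P

open Pool.Agent.H80Pseudo
open Pool.Agent.H8Q (ODense mulG mem_mulG)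

section
variable {G : Type u} [AddCommGroup G] [TopologicalSpace G]

/-- A core: the intersection of a chain of neighbourhoods of zero. -/
def IsCore (N : AddSubgroup G) : Prop :=
  ∃ (W : ℕ → Set G) (hW : Chn W), (∀ k, W k ∈ 𝓝 (0 : G)) ∧ N = hW.core

/-- `Sep S κ`: there are at most `κ` cores whose intersection meets the subgroup `S` only in `0`. -/
def Sep (S : AddSubgroup G) (κ : Cardinal.{u}) : Prop :=
  ∃ T : Set (AddSubgroup G), #T ≤ κ ∧ (∀ N ∈ T, IsCore N) ∧ ∀ x ∈ S, (∀ N ∈ T, x ∈ N) → x = 0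

/-- `D ∩ N₀` is `G_δ`-dense in `N₀` (the conclusion of `exists_dense_layer`). -/
def GDense (N₀ : AddSubgroup G) (D : Set G) : Prop :=
  ∀ V : ℕ → Set G, (∀ k, V k ∈ 𝓝 (0 : G)) → ∀ x ∈ N₀, ∃ a ∈ D, a ∈ N₀ ∧ ∀ k, a - x ∈ V k

end

end Pool.Agent.Lib.H43P
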