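import Mathlib
import Pool.Agent.Lib.H43P.D0

/-!
# H43P D1 (M): cardinal facts on `ODense`
-/

open Set Filter Topology Cardinal

universe u

namespace Pool.Agent.Lib.H43P

open Pool.Agent.H80Pseudo
open Pool.Agent.H8Q (ODense mulG mem_mulG)

/-- Monotone in the index set.  Proof: `Y` is nonempty (use `A = ∅`), `#Y ≤ #Y'` gives a surjection
`f : Y' → Y` (`Function.invFun` of an embedding), use `d ∘ f`. -/
theorem oDense_mono {Y Y' K : Type u} (h : ODense Y K) (hY : #Y ≤ #Y') : ODense Y' K := by
  obtain ⟨d, hd⟩ := h
  have hne : Nonempty Y := by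
    obtain ⟨y, _⟩ := hd ∅ countable_empty (fun _ => false)
    exact ⟨y⟩
  obtain ⟨e⟩ := (Cardinal.le_def Y Y').1 hY
  refine ⟨fun y' => d (Function.invFun e y'), fun A hA v => ?_⟩
  obtain ⟨y, hy⟩ := hd A hA v
  refine ⟨e y, fun k hk => ?_⟩
  show d (Function.invFun e (e y)) k = v k
  rw [Function.leftInverse_invFun e.injective y]
  exact hy k hk

/-- Proof.  If `K` is empty any `d` works (`Y` is nonempty).  Otherwise `P = ℕ → K × Bool` is
nonempty with `#P ≤ (𝔠 * 2) ^ ℵ₀ = 𝔠 ≤ #Y`, so there is a surjection `p : Y → P`.  Put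
`d y k = true` iff `(k, true) ∈ range (p y)`.  Given `A` countable and `v`: if `A` is empty take any
`y`; otherwise the set `{(k, v k) | k ∈ A}` is countable and nonempty, so it is the range of some
sequence `q : ℕ → K × Bool`; take `y` with `p y = q`; for `k ∈ A`: `(k, true) ∈ range q` iff
`v k = true`. -/
theorem oDense_of_continuum {Y K : Type u} (hY : Cardinal.continuum.{u} ≤ #Y)
    (hK : #K ≤ Cardinal.continuum.{u}) : ODense Y K := by
  classical
  have hYne : Nonempty Y := by
    rw [← Cardinal.mk_ne_zero_iff]
    intro h0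
    rw [h0] at hY
    exact absurd (lt_of_lt_of_le Cardinal.aleph0_pos (Cardinal.aleph0_le_continuum.trans hY)) (lt_irrefl _)
  rcases isEmpty_or_nonempty K with hKe | hKn
  · refine ⟨fun _ _ => false, fun A _ v => ?_⟩
    exact ⟨Classical.arbitrary Y, fun k _ => (hKe.false k).elim⟩
  · have hP : #(ℕ → K × Bool) ≤ #Y := by
      refine le_trans ?_ hY
      have h1 : #(ℕ → K × Bool) = (#K * 2) ^ (Cardinal.aleph0 : Cardinal.{u}) := by
        rw [Cardinal.mk_arrow]
        simp
      rw [h1]
      calc (#K * 2) ^ (Cardinal.aleph0 : Cardinal.{u}) ≤ (Cardinal.continuum * 2) ^ (Cardinal.aleph0 : Cardinal.{u}) :=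
            Cardinal.power_le_power_right (mul_le_mul_left hK 2)
        _ ≤ (Cardinal.continuum * Cardinal.continuum) ^ (Cardinal.aleph0 : Cardinal.{u}) := by
            refine Cardinal.power_le_power_right (mul_le_mul_right ?_ _)
            exact (Cardinal.nat_lt_continuum 2).le
        _ = Cardinal.continuum := by
            rw [Cardinal.continuum_mul_self, Cardinal.continuum_power_aleph0]
    obtain ⟨e⟩ := (Cardinal.le_def _ _).1 hP
    have hPne : Nonempty (ℕ → K × Bool) := inferInstance
    refine ⟨fun y k => decide ((k, true) ∈ range (Function.invFun e y)), fun A hA v => ?_⟩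
    rcases A.eq_empty_or_nonempty with hAe | hAn
    · exact ⟨Classical.arbitrary Y, fun k hk => by rw [hAe] at hk; exact hk.elim⟩
    · have hB : ((fun k => (k, v k)) '' A).Countable := hA.image _
      obtain ⟨q, hq⟩ := hB.exists_eq_range (hAn.image _)
      refine ⟨e q, fun k hk => ?_⟩
      show decide ((k, true) ∈ range (Function.invFun e (e q))) = v k
      rw [Function.leftInverse_invFun e.injective q, ← hq]
      cases hv : v k with
      | true =>
        rw [decide_eq_true_iff]
        exact ⟨k, hk, by show (k, v k) = (k, true); rw [hv]⟩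
      | false =>
        rw [decide_eq_false_iff_not]
        rintro ⟨k', _, hk'⟩
        have h3 : k' = k := congrArg Prod.fst hk'
        have h4 : v k' = true := congrArg Prod.snd hk'
        rw [h3, hv] at h4
        exact Bool.false_ne_true h4

/-- Proof.  Let `e : ℕ → K` be injective, `A = range e`.  The map `Y → (ℕ → Bool)`,
`y ↦ (n ↦ d y (e n))` is surjective: for `w : ℕ → Bool` use `v = Function.extend e w (fun _ => false)`.
So `#(ULift (ℕ → Bool)) ≤ #Y`; see `H80Pseudo.continuum_eq_lift` for the cardinal. -/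
theorem continuum_le_of_oDense {Y K : Type u} [Infinite K] (h : ODense Y K) :
    Cardinal.continuum.{u} ≤ #Y := by
  obtain ⟨d, hd⟩ := h
  let e : ℕ ↪ K := Infinite.natEmbedding K
  have hs : Function.Surjective (fun y : Y => (ULift.up (fun n => d y (e n)) : ULift.{u} (ℕ → Bool))) := by
    intro w
    obtain ⟨y, hy⟩ := hd (range e) (countable_range e) (Function.extend e w.down (fun _ => false))
    refine ⟨y, ?_⟩
    apply ULift.ext
    funext n
    show d y (e n) = w.down n
    rw [hy (e n) (mem_range_self n), e.injective.extend_apply]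
  have h1 := Cardinal.mk_le_of_surjective hs
  have h2 : #(ULift.{u} (ℕ → Bool)) = Cardinal.continuum.{u} := by
    rw [Cardinal.mk_uLift, Cardinal.mk_arrow]
    simp
  rwa [h2] at h1

end Pool.Agent.Lib.H43P
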