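import Mathlib
import Pool.Agent.Lib.H43P.D0

/-!
# H43P D2 (M): cores of a pseudocompact group
-/

open Set Filter Topology Cardinal

universe u

namespace Pool.Agent.Lib.H43P

open Pool.Agent.H80Pseudo
open Pool.Agent.H8Q (ODense mulG mem_mulG)

variable {G : Type u} [AddCommGroup G] [TopologicalSpace G] [IsTopologicalAddGroup G]

/-- Proof: the constant chain `fun _ => univ`. -/
theorem isCore_top : IsCore (⊤ : AddSubgroup G) := by
  have hW : Chn (fun _ : ℕ => (univ : Set G)) :=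
    ⟨fun _ => mem_univ _, fun _ _ _ => mem_univ _, fun _ _ _ _ _ => mem_univ _⟩
  refine ⟨fun _ => univ, hW, fun _ => univ_mem, ?_⟩
  ext x
  rw [hW.mem_core]
  exact ⟨fun _ _ => mem_univ _, fun _ => AddSubgroup.mem_top x⟩

/-- The preimage of a core under `x ↦ m • x` is a core.  Proof: `W' k = {x | m • x ∈ W k}` is a chain
of neighbourhoods of zero (`continuous_nsmul`), its core is the preimage. -/
theorem IsCore.comap_nsmul {N : AddSubgroup G} (hN : IsCore N) (m : ℕ) :
    IsCore (N.comap (nsmulAddMonoidHom m : G →+ G)) := by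
  obtain ⟨W, hW, hWn, rfl⟩ := hN
  have hW' : Chn (fun k => {x : G | m • x ∈ W k}) := by
    refine ⟨fun n => ?_, fun n x hx => ?_, fun n x y hx hy => ?_⟩
    · change m • (0 : G) ∈ W n
      rw [smul_zero]
      exact hW.zero_mem n
    · change m • (-x) ∈ W n
      rw [smul_neg]
      exact hW.neg_mem n _ hx
    · change m • (x + y) ∈ W n
      rw [smul_add]
      exact hW.add_mem n _ _ hx hy
  refine ⟨_, hW', fun k => ?_, ?_⟩
  · have h := (continuous_nsmul (M := G) m).tendsto 0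
    rw [smul_zero] at h
    exact h (hWn k)
  · ext x
    rw [AddSubgroup.mem_comap, hW.mem_core, hW'.mem_core]
    exact Iff.rfl

/-- Proof: `{x}ᶜ` is a neighbourhood of zero; `exists_chn` for the constant sequence `{x}ᶜ`. -/
theorem exists_core_notMem [T2Space G] {x : G} (hx : x ≠ 0) : ∃ N : AddSubgroup G, IsCore N ∧ x ∉ N := by
  have hn : ({x}ᶜ : Set G) ∈ 𝓝 (0 : G) := isOpen_compl_singleton.mem_nhds (by simpa using hx.symm)
  obtain ⟨W, hW, hWn, hsub⟩ := exists_chn (fun _ : ℕ => ({x}ᶜ : Set G)) (fun _ => hn)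
  exact ⟨hW.core, ⟨W, hW, hWn, rfl⟩, fun h => hsub 0 (hW.core_subset 0 h) rfl⟩

/-- Proof: `Chn.mk_quotient_core_le` and `PseudocompactSp.cptChn`. -/
theorem IsCore.mk_quotient_le (hG : PseudocompactSp G) {N : AddSubgroup G} (hN : IsCore N) :
    #(G ⧸ N) ≤ Cardinal.continuum.{u} := by
  obtain ⟨W, hW, hWn, rfl⟩ := hN
  exact hW.mk_quotient_core_le (hG.cptChn hW hWn)

/-- `G_δ`-density for countably many cores.  Proof: `M i` is the core of the chain `W i`; use `hD`
for `V k = W (unpair k).1 (unpair k).2`. -/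
theorem GDense.exists_mem {N₀ : AddSubgroup G} {D : Set G} (hD : GDense N₀ D)
    (M : ℕ → AddSubgroup G) (hM : ∀ i, IsCore (M i)) {x : G} (hx : x ∈ N₀) :
    ∃ a ∈ D, a ∈ N₀ ∧ ∀ i, a - x ∈ M i := by
  choose W hW hWn hMW using hM
  obtain ⟨a, haD, haN, hak⟩ := hD (fun k => W k.unpair.1 k.unpair.2) (fun k => hWn _ _) x hx
  refine ⟨a, haD, haN, fun i => ?_⟩
  rw [hMW i, (hW i).mem_core]
  intro n
  have h := hak (Nat.pair i n)
  simp only [Nat.unpair_pair] at h
  exact h

end Pool.Agent.Lib.H43P
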