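import Mathlib
import Pool.Agent.Lib.H43P.D0

/-!
# H43P D3 (M): countable compactness for cosets of cores
-/

open Set Filter Topology Cardinal

universe u

namespace Pool.Agent.Lib.H43P

open Pool.Agent.H80Pseudo
open Pool.Agent.H8Q (ODense mulG mem_mulG)

variable {G : Type u} [AddCommGroup G] [TopologicalSpace G] [IsTopologicalAddGroup G]

/-- If the cosets `g i + M i` of countably many cores and the core `N₀` have the finite intersection
property then they have a common point.

Proof (as at the end of `PseudocompactSp.exists_dense_layer`).  Write `M i` as the core of the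
chain `W i` of neighbourhoods of zero, `N₀` as the core of `W₀`.  By `exists_chn` there is a chain
`Ω` of neighbourhoods of zero with `Ω k ⊆ W₀ k ∩ ⋂ i ∈ range (k+1), W i k`, so (chains are
decreasing) `Ω k ⊆ W i k` for `i ≤ k`.  Let `c k ∈ N₀` be a common point of the first `k` cosets:
`c k - g i ∈ M i` for `i < k`.  By `hG.cptChn` for `Ω` there is `y` such that for all `n`
frequently `c k - y ∈ Ω n`.  For `i`, `m` choose such a `k > i` for `n = max (m+1) i`:
`y - g i = (c k - g i) - (c k - y)` with `c k - g i ∈ M i ⊆ W i (m+1)` and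
`c k - y ∈ Ω n ⊆ W i n ⊆ W i (m+1)`, so `y - g i ∈ W i m` (`Chn.sub_mem`).  In the same way
`y = c k - (c k - y) ∈ W₀ m`. -/
theorem exists_common (hG : PseudocompactSp G) {N₀ : AddSubgroup G} (h0 : IsCore N₀)
    (M : ℕ → AddSubgroup G) (hM : ∀ i, IsCore (M i)) (g : ℕ → G)
    (hfip : ∀ k : ℕ, ∃ y ∈ N₀, ∀ i < k, y - g i ∈ M i) :
    ∃ y ∈ N₀, ∀ i, y - g i ∈ M i := by
  obtain ⟨W₀, hW₀, hW₀n, rfl⟩ := h0
  choose W hW hWn hMW using hM
  obtain ⟨Ω, hΩ, hΩn, hΩsub⟩ := exists_chn (fun k => W₀ k ∩ ⋂ i ∈ Finset.range (k+1), W i k) (by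
    intro k
    refine inter_mem (hW₀n k) ?_
    rw [Filter.biInter_finset_mem]
    exact fun n _ => hWn n k)
  have hΩW : ∀ n k, n ≤ k → Ω k ⊆ W n k := by
    intro n k hnk
    refine ((hΩsub k).trans inter_subset_right).trans ?_
    exact biInter_subset_of_mem (Finset.mem_coe.2 (Finset.mem_range.2 (by omega)))
  have hΩ0 : ∀ k, Ω k ⊆ W₀ k := fun k => (hΩsub k).trans inter_subset_left
  choose c hc0 hc using hfip
  obtain ⟨y, hy⟩ := hG.cptChn hΩ hΩn c
  refine ⟨y, ?_, ?_⟩
  · rw [hW₀.mem_core]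
    intro m
    obtain ⟨k, hk⟩ := (hy (m + 1)).exists
    have h1 : c k - y ∈ W₀ (m + 1) := hΩ0 _ hk
    have h2 : c k ∈ W₀ (m + 1) := hW₀.core_subset _ (hc0 k)
    have e : y = c k - (c k - y) := by abel
    rw [e]
    exact hW₀.sub_mem m h2 h1
  · intro i
    rw [hMW i, (hW i).mem_core]
    intro m
    have h1 := (hy (max (m+1) i)).and_eventually (eventually_gt_atTop i)
    obtain ⟨k, hk1, hk2⟩ := h1.exists
    have h2 : c k - y ∈ W i (m+1) :=
      (hW i).anti (le_max_left _ _) (hΩW i _ (le_max_right _ _) hk1)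
    have h3 : c k - g i ∈ W i (m+1) := by
      have h4 := hc k i hk2
      rw [hMW i] at h4
      exact (hW i).core_subset _ h4
    have e : y - g i = (c k - g i) - (c k - y) := by abel
    rw [e]
    exact (hW i).sub_mem m h3 h2

end Pool.Agent.Lib.H43P
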