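import Mathlib

/-!
# H43P D4 (M): digits (pure algebra, no topology)
-/

open Set Filter Topology Cardinal

universe u

namespace Pool.Agent.Lib.H43P

/-- A digit function: invariant under `M`, both values on every coset of `⟨x⟩`.

Proof.  Let `P' = M ⊔ AddSubgroup.zmultiples x` and `r g = Quotient.out (g : P ⧸ P')`, so
`g - r g ∈ P'` and `r g = r g'` if `g - g' ∈ P'`.  Put `d g = true` iff `g - r g ∈ M`.  Invariance:
if `g - g' ∈ M` then `r g = r g'`.  Both values: `g - r g = a + j • x` with `a ∈ M`, `j : ℤ`
(`AddSubgroup.mem_sup`, `mem_zmultiples_iff`).  `g' = g + (-j) • x` has `r g' = r g` and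
`g' - r g' = a ∈ M`, so `d g' = true`; `g'' = g + (1 - j) • x` has `g'' - r g'' = a + x ∉ M`, so
`d g'' = false`. -/
theorem exists_digit {P : Type*} [AddCommGroup P] (M : AddSubgroup P) (x : P) (hx : x ∉ M) :
    ∃ d : P → Bool, (∀ g g', g - g' ∈ M → d g = d g') ∧
      ∀ (g : P) (b : Bool), ∃ j : ℤ, d (g + j • x) = b := by
  classical
  let P' : AddSubgroup P := M ⊔ AddSubgroup.zmultiples x
  let r : P → P := fun g => Quotient.out (QuotientAddGroup.mk g : P ⧸ P')
  have hr1 : ∀ g, g - r g ∈ P' := by
    intro g
    have h1 : (QuotientAddGroup.mk (r g) : P ⧸ P') = QuotientAddGroup.mk g := Quotient.out_eq _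
    have h2 := QuotientAddGroup.eq.1 h1
    have h3 : g - r g = -(r g) + g := by abel
    rw [h3]
    exact h2
  have hr2 : ∀ g g', g - g' ∈ P' → r g = r g' := by
    intro g g' h
    have h1 : (QuotientAddGroup.mk g : P ⧸ P') = QuotientAddGroup.mk g' := by
      rw [QuotientAddGroup.eq]
      have h3 : -g + g' = -(g - g') := by abel
      rw [h3]
      exact P'.neg_mem h
    show Quotient.out (QuotientAddGroup.mk g : P ⧸ P') =
      Quotient.out (QuotientAddGroup.mk g' : P ⧸ P')
    rw [h1]
  refine ⟨fun g => decide (g - r g ∈ M), ?_, ?_⟩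
  · intro g g' h
    have h1 : r g = r g' := hr2 _ _ (AddSubgroup.mem_sup_left h)
    have h2 : g - r g ∈ M ↔ g' - r g' ∈ M := by
      rw [h1]
      constructor
      · intro h3
        have h4 : g' - r g' = (g - r g') - (g - g') := by abel
        rw [h4]
        exact M.sub_mem h3 h
      · intro h3
        have h4 : g - r g' = (g' - r g') + (g - g') := by abel
        rw [h4]
        exact M.add_mem h3 h
    exact decide_eq_decide.2 h2
  · intro g b
    obtain ⟨a, ha, z, hz, haz⟩ := AddSubgroup.mem_sup.1 (hr1 g)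
    obtain ⟨j, hj⟩ := AddSubgroup.mem_zmultiples_iff.1 hz
    have hg : r g = g - (a + j • x) := by
      rw [hj, haz]
      abel
    have hrk : ∀ k : ℤ, r (g + k • x) = r g := by
      intro k
      apply hr2
      have h4 : g + k • x - g = k • x := by abel
      rw [h4]
      exact AddSubgroup.mem_sup_right (AddSubgroup.mem_zmultiples_iff.2 ⟨k, rfl⟩)
    cases b
    · refine ⟨1 - j, ?_⟩
      have h5 : g + (1 - j) • x - r (g + (1 - j) • x) = a + x := by
        rw [hrk, hg, sub_smul, one_smul]
        abel
      show decide (g + (1 - j) • x - r (g + (1 - j) • x) ∈ M) = false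
      rw [decide_eq_false_iff_not, h5]
      intro h6
      apply hx
      have h7 := M.sub_mem h6 ha
      rwa [add_sub_cancel_left] at h7
    · refine ⟨-j, ?_⟩
      have h5 : g + (-j) • x - r (g + (-j) • x) = a := by
        rw [hrk, hg, neg_smul]
        abel
      show decide (g + (-j) • x - r (g + (-j) • x) ∈ M) = true
      rw [decide_eq_true_iff, h5]
      exact ha

end Pool.Agent.Lib.H43P
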