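import Mathlib
import Pool.Agent.Lib.H43P.D4

/-!
# H43P D5 (M): the recursion on digits (pure algebra, no topology)
-/

open Set Filter Topology Cardinal

universe u

namespace Pool.Agent.Lib.H43P

/-- `K` well ordered, `x s ∈ M u` for `u < s`, `x s ∉ M s`, and coherent countable families of cosets
have a common point.  Then there are digit functions with all countable patterns.

Proof.  `d s` is the digit function of `exists_digit` for `M s`, `x s`; choose
`J s g b : ℤ` with `d s (g + J s g b • x s) = b`.  Let `A` be countable and `v` given.  Define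
`g : K → P` by well founded recursion (`WellFounded.fix` on `(· < ·)`, unfolded by
`WellFounded.fix_eq`; a function `F u (f : (w : K) → w < u → P)`):
if there is `y` with `y - f w h ∈ M w` for all `w ∈ A` with `h : w < u`, choose such a `y` and put
`g u = y + J u y (v u) • x u`; otherwise `g u = 0`.
Claim, by strong induction on `u` (`WellFoundedLT.induction`): for all `w ∈ A`, `w < u`:
`g u - g w ∈ M w`, and `d u (g u) = v u`.  Indeed by the induction hypothesis the family `g` is
coherent on `A ∩ {w | w < u}` (for `w < w'` in this set the claim for `w'` gives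
`g w' - g w ∈ M w`), so `hC` for this countable set gives a common point and we are in the first
case: `g u - g w = (y - g w) + J • x u`, `x u ∈ M w`.  Finally `hC` for `A` and `g` gives `y` with
`y - g s ∈ M s` for `s ∈ A`, so `d s y = d s (g s) = v s`. -/
theorem exists_digits {P : Type*} [AddCommGroup P] {K : Type*} [LinearOrder K] [WellFoundedLT K]
    (M : K → AddSubgroup P) (x : K → P) (hx : ∀ u s, u < s → x s ∈ M u) (hxs : ∀ s, x s ∉ M s)
    (hC : ∀ A : Set K, A.Countable → ∀ g : K → P,
      (∀ u ∈ A, ∀ w ∈ A, w < u → g u - g w ∈ M w) → ∃ y, ∀ w ∈ A, y - g w ∈ M w) :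
    ∃ d : K → P → Bool, (∀ s g g', g - g' ∈ M s → d s g = d s g') ∧
      ∀ A : Set K, A.Countable → ∀ v : K → Bool, ∃ y, ∀ s ∈ A, d s y = v s := by
  classical
  choose d hd1 hd2 using fun s => exists_digit (M s) (x s) (hxs s)
  choose J hJ using hd2
  refine ⟨d, hd1, fun A hA v => ?_⟩
  obtain ⟨g, hg⟩ : ∃ g : K → P, ∀ u, g u = if h : ∃ y, ∀ w ∈ A, w < u → y - g w ∈ M w then
      h.choose + J u h.choose (v u) • x u else 0 := by
    let F : (u : K) → ((w : K) → w < u → P) → P := fun u f =>
      if h : ∃ y, ∀ w, w ∈ A → ∀ hw : w < u, y - f w hw ∈ M w then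
        h.choose + J u h.choose (v u) • x u else 0
    refine ⟨WellFounded.fix (wellFounded_lt (α := K)) F, fun u => ?_⟩
    rw [WellFounded.fix_eq]
  have claim : ∀ u, (∀ w ∈ A, w < u → g u - g w ∈ M w) ∧ d u (g u) = v u := by
    intro u
    induction u using WellFoundedLT.induction with
    | _ u ih =>
      have hex : ∃ y, ∀ w ∈ A, w < u → y - g w ∈ M w := by
        obtain ⟨y, hy⟩ := hC (A ∩ {w | w < u}) (hA.mono Set.inter_subset_left) g
          (fun a ha b hb hab => (ih a ha.2).1 b hb.1 hab)
        exact ⟨y, fun w hw hwu => hy w ⟨hw, hwu⟩⟩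
      have hgu : g u = hex.choose + J u hex.choose (v u) • x u := by
        rw [hg u, dif_pos hex]
      refine ⟨fun w hw hwu => ?_, ?_⟩
      · have h1 := hex.choose_spec w hw hwu
        have h2 : J u hex.choose (v u) • x u ∈ M w := (M w).zsmul_mem (hx w u hwu) _
        have h3 := (M w).add_mem h1 h2
        rw [hgu]
        have e : hex.choose + J u hex.choose (v u) • x u - g w =
            hex.choose - g w + J u hex.choose (v u) • x u := by abel
        rw [e]
        exact h3
      · rw [hgu]
        exact hJ u _ _
  obtain ⟨y, hy⟩ := hC A hA g (fun a _ b hb hab => (claim a).1 b hb hab)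
  exact ⟨y, fun s hs => (hd1 s _ _ (hy s hs)).trans (claim s).2⟩

end Pool.Agent.Lib.H43P
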