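import Mathlib
import Pool.Agent.Lib.H43P.D0
import Pool.Agent.Lib.H43P.D2

/-!
# H43P D6 (M): the tower of cores
-/

open Set Filter Topology Cardinal

universe u

namespace Pool.Agent.Lib.H43P

open Pool.Agent.H80Pseudo
open Pool.Agent.H8Q (ODense mulG mem_mulG)

variable {G : Type u} [AddCommGroup G] [TopologicalSpace G] [IsTopologicalAddGroup G]

/-- The tower of cores `N s` and points `x s`, `s` in the initial ordinal of `ν`.

Proof.  For every set `T` of cores with `#T < ν` there are `x ∈ N₀` and a core `N` with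
`m • x ∈ L` for all `L ∈ T` and `m • x ∉ N` (hypothesis and `exists_core_notMem`); choose them:
`X T`, `C T` (for bad `T` take `X T = 0`, `C T = ⊤`; `C T` is always a core by `isCore_top`).
Define `N : ν.ord.ToType → AddSubgroup G` by well founded recursion:
`N s = C {L | ∃ u, u < s ∧ L = N u}` (`WellFounded.fix`, `WellFounded.fix_eq`), and
`x s = X {L | ∃ u, u < s ∧ L = N u}`.  The set `{L | ∃ u < s, L = N u}` is the image of
`Set.Iio s`, so it has cardinality at most `#(Set.Iio s) < ν` (`Cardinal.mk_Iio_ord_toType`). -/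
theorem exists_tower [T2Space G] (N₀ : AddSubgroup G) (m : ℕ) (ν : Cardinal.{u})
    (h : ∀ T : Set (AddSubgroup G), #T < ν → (∀ N ∈ T, IsCore N) →
      ∃ x ∈ N₀, m • x ≠ 0 ∧ ∀ N ∈ T, m • x ∈ N) :
    ∃ (N : ν.ord.ToType → AddSubgroup G) (x : ν.ord.ToType → G),
      (∀ s, IsCore (N s)) ∧ (∀ s, x s ∈ N₀) ∧ (∀ u s, u < s → m • x s ∈ N u) ∧
      ∀ s, m • x s ∉ N s := by
  classical
  have key : ∀ T : Set (AddSubgroup G), ∃ (x : G) (C : AddSubgroup G), IsCore C ∧
      (#T < ν → (∀ N ∈ T, IsCore N) → x ∈ N₀ ∧ (∀ N ∈ T, m • x ∈ N) ∧ m • x ∉ C) := by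
    intro T
    by_cases hT : #T < ν ∧ ∀ N ∈ T, IsCore N
    · obtain ⟨x, hx, hx0, hxT⟩ := h T hT.1 hT.2
      obtain ⟨C, hC, hxC⟩ := exists_core_notMem hx0
      exact ⟨x, C, hC, fun _ _ => ⟨hx, hxT, hxC⟩⟩
    · exact ⟨0, ⊤, isCore_top, fun h1 h2 => absurd ⟨h1, h2⟩ hT⟩
  choose X C hC hXC using key
  let N : ν.ord.ToType → AddSubgroup G :=
    WellFoundedLT.fix (fun s ih => C {L | ∃ (u : ν.ord.ToType) (hu : u < s), L = ih u hu})
  have hNeq : ∀ s, N s = C {L | ∃ (u : ν.ord.ToType) (_ : u < s), L = N u} := fun s =>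
    WellFoundedLT.fix_eq (fun s ih => C {L | ∃ (u : ν.ord.ToType) (hu : u < s), L = ih u hu}) s
  have hcore : ∀ s, IsCore (N s) := by
    intro s
    rw [hNeq]
    exact hC _
  have hcard : ∀ s, #{L | ∃ (u : ν.ord.ToType) (_ : u < s), L = N u} < ν := by
    intro s
    have hsub : {L | ∃ (u : ν.ord.ToType) (_ : u < s), L = N u} ⊆ N '' Set.Iio s := by
      rintro L ⟨u, hu, rfl⟩
      exact ⟨u, hu, rfl⟩
    refine lt_of_le_of_lt ((Cardinal.mk_le_mk_of_subset hsub).trans Cardinal.mk_image_le) ?_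
    have h1 := Cardinal.mk_Iio_lt s (by simp)
    simpa using h1
  have hcores : ∀ s, ∀ L ∈ {L | ∃ (u : ν.ord.ToType) (_ : u < s), L = N u}, IsCore L := by
    rintro s L ⟨u, _, rfl⟩
    exact hcore u
  refine ⟨N, fun s => X {L | ∃ (u : ν.ord.ToType) (_ : u < s), L = N u}, hcore, ?_, ?_, ?_⟩
  · intro s
    exact (hXC _ (hcard s) (hcores s)).1
  · intro u s hus
    exact (hXC _ (hcard s) (hcores s)).2.1 (N u) ⟨u, hus, rfl⟩
  · intro s
    have h1 := (hXC _ (hcard s) (hcores s)).2.2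
    rw [← hNeq s] at h1
    exact h1

end Pool.Agent.Lib.H43P
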