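import Mathlib
import Pool.Agent.Lib.H43P.D1
import Pool.Agent.Lib.H43P.D2
import Pool.Agent.Lib.H43P.D3
import Pool.Agent.Lib.H43P.D5
import Pool.Agent.Lib.H43P.D6

/-!
# H43P D7 (M): the general density lemma
-/

open Set Filter Topology Cardinal

universe u

namespace Pool.Agent.Lib.H43P

open Pool.Agent.H80Pseudo
open Pool.Agent.H8Q (ODense mulG mem_mulG)

variable {G : Type u} [AddCommGroup G] [TopologicalSpace G] [IsTopologicalAddGroup G]

/-- **General lemma (b).**

Proof.  Take `N s`, `x s` from `exists_tower` (`K = ν.ord.ToType`).  Apply `exists_digits` to the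
group `P = N₀`, `M s = ((N s).comap (nsmulAddMonoidHom m)).comap N₀.subtype` (so `p ∈ M s` iff
`m • (p : G) ∈ N s`) and `x s : N₀`.  Hypothesis `hC`: let `A` be countable and `g : K → N₀`
coherent on `A`.  If `A = ∅` take `y = 0`.  Otherwise `A = range e`, `e : ℕ → K`
(`Set.Countable.exists_eq_range`); apply `exists_common` to the cores
`(N (e i)).comap (nsmulAddMonoidHom m)` (`IsCore.comap_nsmul`) and the points `(g (e i) : G)`:
for `k = 0` take `0`; for `k > 0` let `j < k` be such that `e j` is the largest of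
`e 0, …, e (k-1)` (`Finset.exists_max_image`), then `y = g (e j)` is in the first `k` cosets: for
`i < k` either `e i = e j` or `e i < e j` and coherence gives `g (e j) - g (e i) ∈ M (e i)`.
So there are digit functions `d s : N₀ → Bool`, `M s`-invariant.

Rows.  For `z` in the image choose `a z ∈ D ∩ N₀` with `m • a z = z`; row `z`: `s ↦ d s (a z)`.  For
`A` countable and `v`: `exists_digits` gives `y ∈ N₀` with `d s y = v s` on `A`; `GDense.exists_mem`
(for the cores `(N (e i)).comap (nsmulAddMonoidHom m)`, `A = range e`; if `A = ∅` any element) gives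
`a ∈ D ∩ N₀` with `m • (a - y) ∈ N s` for `s ∈ A`.  Put `z = m • a`: then
`m • (a z - y) = m • (a - y)`, so `a z - y ∈ M s` and `d s (a z) = d s y = v s`. -/
theorem oDense_general [T2Space G] (hG : PseudocompactSp G) {N₀ : AddSubgroup G} (h0 : IsCore N₀)
    (m : ℕ) (ν : Cardinal.{u})
    (h : ∀ T : Set (AddSubgroup G), #T < ν → (∀ N ∈ T, IsCore N) →
      ∃ x ∈ N₀, m • x ≠ 0 ∧ ∀ N ∈ T, m • x ∈ N)
    (D : Set G) (hD : GDense N₀ D) :
    ODense ((fun x : G => m • x) '' {a | a ∈ D ∧ a ∈ N₀} : Set G) ν.ord.ToType := by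
  classical
  obtain ⟨N, x, hNc, hx0, hxu, hxs⟩ := exists_tower N₀ m ν h
  let M : ν.ord.ToType → AddSubgroup N₀ := fun s =>
    ((N s).comap (nsmulAddMonoidHom m : G →+ G)).comap N₀.subtype
  have hM : ∀ s (p : N₀), p ∈ M s ↔ m • (p : G) ∈ N s := fun s p => Iff.rfl
  have hcoreM : ∀ s, IsCore ((N s).comap (nsmulAddMonoidHom m : G →+ G)) := fun s =>
    (hNc s).comap_nsmul m
  obtain ⟨d, hd1, hd2⟩ := exists_digits M (fun s => ⟨x s, hx0 s⟩)
    (fun u s hus => (hM _ _).2 (hxu u s hus)) (fun s hs => hxs s ((hM _ _).1 hs)) (by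
      intro A hA g hg
      rcases A.eq_empty_or_nonempty with rfl | hne
      · exact ⟨0, fun w hw => absurd hw (Set.notMem_empty w)⟩
      obtain ⟨e, he⟩ := hA.exists_eq_range hne
      have hmem : ∀ i, e i ∈ A := by
        rw [he]
        exact fun i => Set.mem_range_self i
      have hfip : ∀ k : ℕ, ∃ y ∈ N₀, ∀ i < k, y - (g (e i) : G) ∈
          (N (e i)).comap (nsmulAddMonoidHom m : G →+ G) := by
        intro k
        rcases Nat.eq_zero_or_pos k with rfl | hk
        · exact ⟨0, N₀.zero_mem, fun i hi => absurd hi (Nat.not_lt_zero i)⟩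
        · obtain ⟨j, hj, hmax⟩ := Finset.exists_max_image (Finset.range k) e
            ⟨0, Finset.mem_range.2 hk⟩
          refine ⟨(g (e j) : G), (g (e j)).2, fun i hi => ?_⟩
          rcases (hmax i (Finset.mem_range.2 hi)).eq_or_lt with h1 | h1
          · rw [h1, sub_self]
            exact AddSubgroup.zero_mem _
          · exact hg (e j) (hmem j) (e i) (hmem i) h1
      obtain ⟨y, hy0, hy⟩ := exists_common hG h0
        (fun i => (N (e i)).comap (nsmulAddMonoidHom m : G →+ G)) (fun i => hcoreM _)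
        (fun i => (g (e i) : G)) hfip
      refine ⟨⟨y, hy0⟩, fun w hw => ?_⟩
      rw [he] at hw
      obtain ⟨i, rfl⟩ := hw
      exact hy i)
  choose a ha using fun z : ((fun x : G => m • x) '' {a | a ∈ D ∧ a ∈ N₀} : Set G) => z.2
  refine ⟨fun z s => d s ⟨a z, (ha z).1.2⟩, ?_⟩
  intro A hA v
  obtain ⟨y, hy⟩ := hd2 A hA v
  rcases A.eq_empty_or_nonempty with hAe | hne
  · obtain ⟨a', haD, ha0, -⟩ := hD.exists_mem (fun _ => (⊤ : AddSubgroup G)) (fun _ => isCore_top)
      N₀.zero_mem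
    refine ⟨⟨m • a', a', ⟨haD, ha0⟩, rfl⟩, fun k hk => ?_⟩
    rw [hAe] at hk
    exact absurd hk (Set.notMem_empty k)
  · obtain ⟨e, he⟩ := hA.exists_eq_range hne
    obtain ⟨a', haD, ha0, ha'⟩ := hD.exists_mem
      (fun i => (N (e i)).comap (nsmulAddMonoidHom m : G →+ G)) (fun i => hcoreM _) y.2
    refine ⟨⟨m • a', a', ⟨haD, ha0⟩, rfl⟩, fun s hs => ?_⟩
    rw [← hy s hs]
    apply hd1
    rw [hM]
    have hs' := hs
    rw [he] at hs'
    obtain ⟨i, rfl⟩ := hs'
    have h1 : m • (a' - (y : G)) ∈ N (e i) := ha' i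
    have h2 := (ha ⟨m • a', a', ⟨haD, ha0⟩, rfl⟩).2
    have h3 : m • a ⟨m • a', a', ⟨haD, ha0⟩, rfl⟩ = m • a' := h2
    rw [smul_sub] at h1
    rw [AddSubgroup.coe_sub, smul_sub, h3]
    exact h1

end Pool.Agent.Lib.H43P
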