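import Mathlib
import Pool.Agent.Lib.H43P.D2

/-!
# H43P D8 (M): cardinality and separation by cores
-/

open Set Filter Topology Cardinal

universe u

namespace Pool.Agent.Lib.H43P

open Pool.Agent.H80Pseudo
open Pool.Agent.H8Q (ODense mulG mem_mulG)

variable {G : Type u} [AddCommGroup G] [TopologicalSpace G] [IsTopologicalAddGroup G]

/-- Proof: the same set of cores. -/
theorem Sep.mono {S S' : AddSubgroup G} {κ : Cardinal.{u}} (h : Sep S κ) (hS : S' ≤ S) :
    Sep S' κ := by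
  obtain ⟨T, h1, h2, h3⟩ := h
  exact ⟨T, h1, h2, fun x hx => h3 x (hS hx)⟩

/-- Proof.  `S → (N : T) → G ⧸ (N : AddSubgroup G)` is injective, so
`#S ≤ Cardinal.prod (fun N : T => #(G ⧸ N)) ≤ 𝔠 ^ #T ≤ 𝔠 ^ κ ≤ (2 ^ κ) ^ κ = 2 ^ κ`
(`Cardinal.mk_pi`, `Cardinal.prod_le_prod`, `IsCore.mk_quotient_le`, `Cardinal.power_self_eq` /
`Cardinal.mul_eq_self`). -/
theorem Sep.mk_le (hG : PseudocompactSp G) {S : AddSubgroup G} {κ : Cardinal.{u}} (h : Sep S κ)
    (hκ : Cardinal.continuum.{u} ≤ κ) : #S ≤ 2 ^ κ := by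
  obtain ⟨T, hT, hc, hs⟩ := h
  let f : S → ((N : T) → G ⧸ (N : AddSubgroup G)) := fun x N => QuotientAddGroup.mk (x : G)
  have hf : Function.Injective f := by
    intro x y hxy
    have h1 : ∀ N ∈ T, (x : G) - y ∈ N := by
      intro N hN
      have h2 := congrFun hxy ⟨N, hN⟩
      have h3 := QuotientAddGroup.eq.1 h2
      have h4 := N.neg_mem h3
      have h5 : -(-(x : G) + y) = x - y := by abel
      rwa [h5] at h4
    have h6 := hs ((x : G) - y) (S.sub_mem x.2 y.2) h1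
    exact Subtype.ext (sub_eq_zero.1 h6)
  have hal : Cardinal.aleph0 ≤ κ := Cardinal.aleph0_le_continuum.trans hκ
  calc #S ≤ #((N : T) → G ⧸ (N : AddSubgroup G)) := Cardinal.mk_le_of_injective hf
    _ = Cardinal.prod (fun N : T => #(G ⧸ (N : AddSubgroup G))) := Cardinal.mk_pi _
    _ ≤ Cardinal.prod (fun _ : T => Cardinal.continuum.{u}) :=
        Cardinal.prod_le_prod _ _ fun N => (hc N.1 N.2).mk_quotient_le hG
    _ = Cardinal.continuum.{u} ^ #T := Cardinal.prod_const' _ _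
    _ ≤ Cardinal.continuum.{u} ^ κ := Cardinal.power_le_power_left Cardinal.continuum_ne_zero hT
    _ ≤ κ ^ κ := Cardinal.power_le_power_right hκ
    _ = 2 ^ κ := Cardinal.power_self_eq hal

/-- **(c)** If `m G` is not separated by fewer than `ν` cores then the multiples of a core are not
either.

Proof.  Suppose not: `T` is a set of cores, `#T < ν`, and every `x ∈ N₀` with `m • x ∈ N` for all
`N ∈ T` has `m • x = 0`.  Let `I = {z ∈ mulG G m | ∀ N ∈ T, z ∈ N}`; choose `x z` with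
`m • x z = z` for `z ∈ I`.  The map `I → G ⧸ N₀`, `z ↦ x z`, is injective: if `x z - x z' ∈ N₀` then
`z - z' = m • (x z - x z')` is in all `N ∈ T`, so it is `0`.  Hence `#I ≤ 𝔠`
(`IsCore.mk_quotient_le`).  For `z ∈ I`, `z ≠ 0`, choose a core `L z` with `z ∉ L z`
(`exists_core_notMem`), and `L 0 = ⊤` (`isCore_top`).  Put `T' = T ∪ range L` and
`κ = max (#T) 𝔠`, so `#T' ≤ #T + 𝔠 ≤ κ` (`Cardinal.mk_union_le`, `mk_range_le`,
`Cardinal.add_eq_max`), `𝔠 ≤ κ < ν`, and `Sep (mulG G m) κ` by `T'`: an element of `mulG G m` in all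
members of `T'` is in `I` and in its own `L z`, so it is `0`.  Contradiction to `hn`. -/
theorem exists_of_not_sep [T2Space G] (hG : PseudocompactSp G) {N₀ : AddSubgroup G}
    (h0 : IsCore N₀) {m : ℕ} {ν : Cardinal.{u}} (hν : Cardinal.continuum.{u} < ν)
    (hn : ∀ κ : Cardinal.{u}, Cardinal.continuum.{u} ≤ κ → κ < ν → ¬ Sep (mulG G m) κ)
    (T : Set (AddSubgroup G)) (hT : #T < ν) (hTc : ∀ N ∈ T, IsCore N) :
    ∃ x ∈ N₀, m • x ≠ 0 ∧ ∀ N ∈ T, m • x ∈ N := by
  classical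
  by_contra hcon
  push Not at hcon
  let I : Set G := {z | z ∈ mulG G m ∧ ∀ N ∈ T, z ∈ N}
  have hx : ∀ z : I, ∃ g : G, m • g = (z : G) := fun z => mem_mulG.1 z.2.1
  choose x hxz using hx
  have hinj : Function.Injective fun z : I => (QuotientAddGroup.mk (x z) : G ⧸ N₀) := by
    intro z z' hzz
    have h1 : x z - x z' ∈ N₀ := by
      have h2 := N₀.neg_mem (QuotientAddGroup.eq.1 hzz)
      have h3 : -(-(x z) + x z') = x z - x z' := by abel
      rwa [h3] at h2
    have h4 : m • (x z - x z') = (z : G) - z' := by rw [smul_sub, hxz, hxz]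
    by_contra hne
    have h5 : m • (x z - x z') ≠ 0 := by
      rw [h4]
      exact fun h0 => hne (Subtype.ext (sub_eq_zero.1 h0))
    obtain ⟨N, hN, hnN⟩ := hcon _ h1 h5
    apply hnN
    rw [h4]
    exact N.sub_mem (z.2.2 N hN) (z'.2.2 N hN)
  have hI : #I ≤ Cardinal.continuum.{u} :=
    (Cardinal.mk_le_of_injective hinj).trans (h0.mk_quotient_le hG)
  have hL : ∀ z : I, ∃ N : AddSubgroup G, IsCore N ∧ ((z : G) ≠ 0 → (z : G) ∉ N) := by
    intro z
    by_cases hz : (z : G) = 0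
    · exact ⟨⊤, isCore_top, fun h => absurd hz h⟩
    · obtain ⟨N, hN, hzN⟩ := exists_core_notMem hz
      exact ⟨N, hN, fun _ => hzN⟩
  choose L hLc hLz using hL
  refine hn (max #T Cardinal.continuum.{u}) (le_max_right _ _) (max_lt hT hν)
    ⟨T ∪ Set.range L, ?_, ?_, ?_⟩
  · calc #(T ∪ Set.range L : Set (AddSubgroup G)) ≤ #T + #(Set.range L) := Cardinal.mk_union_le _ _
      _ ≤ #T + Cardinal.continuum.{u} := add_le_add le_rfl (Cardinal.mk_range_le.trans hI)
      _ = max #T Cardinal.continuum.{u} := Cardinal.add_eq_max' Cardinal.aleph0_le_continuum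
  · rintro N (hN | ⟨z, rfl⟩)
    · exact hTc N hN
    · exact hLc z
  · intro z hz hall
    by_contra hz0
    have hzI : z ∈ I := ⟨hz, fun N hN => hall N (Or.inl hN)⟩
    exact hLz ⟨z, hzI⟩ hz0 (hall _ (Or.inr ⟨⟨z, hzI⟩, rfl⟩))

end Pool.Agent.Lib.H43P
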