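import Mathlib
import Pool.Agent.Lib.H43P.D0
import Pool.Agent.Lib.H80Pseudo.CaseC2

/-!
# H43P D9 (M): the rank is at least the continuum if no `n G` is finite
-/

open Set Filter Topology Cardinal

universe u

namespace Pool.Agent.Lib.H43P

open Pool.Agent.H80Pseudo
open Pool.Agent.H8Q (ODense mulG mem_mulG)

variable {G : Type u} [AddCommGroup G] [TopologicalSpace G] [IsTopologicalAddGroup G]

/-- Proof: copy of `H80Pseudo.continuum_le_rank` (file `H80Pseudo/CaseC2.lean`).  The hypothesis
`hsoc` is used there only in the very last lines, where it is known that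
`(M * (k.factorial * Nat.card (G ⧸ L k))) • g = 0` for all `g` (`hbd`), with a positive factor;
here this contradicts `hinf` for this factor (`mulG G n` would be `⊥`).  `Infinite G` is only used
there in this last step too (and follows from `hinf 1`). -/
theorem continuum_le_rank' [T2Space G] (hG : PseudocompactSp G) {ι : Type u} (b : ι → G)
    (ψ : G →+ (ι →₀ ℚ)) (hb : ∀ i, ψ (b i) = Finsupp.single i 1)
    (htor : ∀ g, ∃ n : ℕ, 0 < n ∧ n • g ∈ AddSubgroup.closure (range b))
    (hinf : ∀ n : ℕ, 0 < n → Infinite (mulG G n)) :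
    Cardinal.continuum.{u} ≤ #ι := by
  classical
  by_contra hlt
  rw [not_le] at hlt
  set B := AddSubgroup.closure (range b) with hB
  have hBlt : #B < Cardinal.continuum.{u} :=
    (mk_closure_range_le b).trans_lt (mk_finsupp_lt mk_int_le hlt)
  let A : ℕ → AddSubgroup G := fun n => B.comap (nsmulAddMonoidHom n.factorial : G →+ G)
  have hmemA : ∀ n g, g ∈ A n ↔ n.factorial • g ∈ B := fun n g => Iff.rfl
  have hA : ∀ g, ∃ n, g ∈ A n := by
    intro g
    obtain ⟨n, hn, hng⟩ := htor g
    refine ⟨n, ?_⟩
    rw [hmemA]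
    obtain ⟨m, hm⟩ := Nat.dvd_factorial hn le_rfl
    rw [hm, mul_comm, mul_smul]
    exact B.nsmul_mem hng m
  obtain ⟨n, W, hW, hWn, hD⟩ := hG.exists_dense_layer A hA
  have hfin : ((fun x => n.factorial • x) '' (hW.core : Set G)).Finite := by
    by_contra hinf'
    have h1 := continuum_le_of_infinite hG (A n) hW hWn hD n.factorial hinf'
    have h2 : (fun x => n.factorial • x) '' (A n : Set G) ⊆ B := by
      rintro _ ⟨x, hx, rfl⟩
      exact hx
    exact absurd (h1.trans (Cardinal.mk_le_mk_of_subset h2)) (not_le.2 hBlt)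
  -- core is bounded
  obtain ⟨M, hM, hMc⟩ : ∃ M : ℕ, 0 < M ∧ ∀ x ∈ hW.core, M • x = 0 := by
    let K : AddSubgroup G := hW.core.map (nsmulAddMonoidHom n.factorial : G →+ G)
    have hK : Finite K := by
      have : (K : Set G) = (fun x => n.factorial • x) '' (hW.core : Set G) := rfl
      exact (this ▸ hfin : (K : Set G).Finite).to_subtype
    refine ⟨Nat.card K * n.factorial, Nat.mul_pos Nat.card_pos n.factorial_pos, ?_⟩
    intro x hx
    have h1 : n.factorial • x ∈ K := ⟨x, hx, rfl⟩
    have h2 : Nat.card K • (⟨n.factorial • x, h1⟩ : K) = 0 := card_nsmul_eq_zero'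
    rw [mul_smul]
    exact congrArg Subtype.val h2
  let L : ℕ → AddSubgroup G := fun k => hW.core.comap (nsmulAddMonoidHom k.factorial : G →+ G)
  have hmemL : ∀ k g, g ∈ L k ↔ k.factorial • g ∈ hW.core := fun k g => Iff.rfl
  have hmono : Monotone L := by
    intro k l hkl g hg
    rw [hmemL] at hg ⊢
    obtain ⟨m, hm⟩ := Nat.factorial_dvd_factorial hkl
    rw [hm, mul_comm, mul_smul]
    exact hW.core.nsmul_mem hg m
  by_cases hL : ∀ k, ¬ Finite (G ⧸ L k)
  · obtain ⟨x, hx⟩ := hW.exists_cantor_family (hG.cptChn hW hWn) L hmono hL (by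
      intro k g hg
      rw [hmemL] at hg
      exact closed_preimage hW _ hg)
    have hinj : Function.Injective (fun r => ψ (x r)) := by
      intro r r' hrr
      by_contra hne
      have h0 : ψ (x r - x r') = 0 := by rw [map_sub]; exact sub_eq_zero.2 hrr
      obtain ⟨m, hm, hmB⟩ := htor (x r - x r')
      have h1 : m • (x r - x r') = 0 :=
        eq_zero_of_mem_closure hb hmB (by rw [map_nsmul, h0, smul_zero])
      apply hx r r' hne m
      rw [hmemL]
      obtain ⟨l, hl⟩ := Nat.dvd_factorial hm le_rfl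
      rw [hl, mul_comm, mul_smul, h1, smul_zero]
      exact hW.core.zero_mem
    have h2 := Cardinal.mk_le_of_injective (α := ULift.{u} (ℕ → Bool))
      (hinj.comp ULift.down_injective)
    rw [Cardinal.mk_uLift, ← continuum_eq_lift] at h2
    exact absurd h2 (not_le.2 (mk_finsupp_lt mk_rat_le hlt))
  · push Not at hL
    obtain ⟨k, hk⟩ := hL
    have hbd : ∀ g : G, (M * (k.factorial * Nat.card (G ⧸ L k))) • g = 0 := by
      intro g
      have h1 : Nat.card (G ⧸ L k) • (QuotientAddGroup.mk g : G ⧸ L k) = 0 := card_nsmul_eq_zero'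
      rw [← QuotientAddGroup.mk_nsmul, QuotientAddGroup.eq_zero_iff, hmemL] at h1
      rw [mul_smul, mul_smul]
      exact hMc _ h1
    have hpos : 0 < M * (k.factorial * Nat.card (G ⧸ L k)) :=
      Nat.mul_pos hM (Nat.mul_pos k.factorial_pos Nat.card_pos)
    have hI := hinf _ hpos
    have hsub : Subsingleton (mulG G (M * (k.factorial * Nat.card (G ⧸ L k)))) := by
      refine ⟨fun x y => ?_⟩
      have key : ∀ z : mulG G (M * (k.factorial * Nat.card (G ⧸ L k))), z = 0 := by
        rintro ⟨z, hz⟩
        obtain ⟨w, hw⟩ := mem_mulG.1 hz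
        refine Subtype.ext ?_
        show z = 0
        rw [← hw]
        exact hbd w
      rw [key x, key y]
    exact not_finite (mulG G (M * (k.factorial * Nat.card (G ⧸ L k))))

end Pool.Agent.Lib.H43P
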