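import Mathlib
import Pool.Agent.Lib.H43P.D7
import Pool.Agent.Lib.H43P.D8
import Pool.Agent.Lib.H43P.D9

/-!
# H43P D10 (M): the numbers of `n G`
-/

open Set Filter Topology Cardinal

universe u

namespace Pool.Agent.Lib.H43P

open Pool.Agent.H80Pseudo
open Pool.Agent.H8Q (ODense mulG mem_mulG)

variable {G : Type u} [AddCommGroup G] [TopologicalSpace G] [IsTopologicalAddGroup G]

/-- For every subgroup `S` there is a least `ν ≥ 𝔠` with `Sep S ν`.

Proof: the set of these `κ` is nonempty: for every `x ≠ 0` choose a core `L x` with `x ∉ L x`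
(`exists_core_notMem`), `L 0 = ⊤`, `T = range L`, `κ = max (#G) 𝔠`.  `WellFounded.min` /
`exists_minimal` on `Cardinal` (`Cardinal.lt_wf`). -/
theorem exists_least_sep [T2Space G] (S : AddSubgroup G) :
    ∃ ν : Cardinal.{u}, Cardinal.continuum.{u} ≤ ν ∧ Sep S ν ∧
      ∀ κ : Cardinal.{u}, Cardinal.continuum.{u} ≤ κ → κ < ν → ¬ Sep S κ := by
  classical
  have hL : ∀ x : G, ∃ N : AddSubgroup G, IsCore N ∧ (x ∈ N → x = 0) := by
    intro x
    by_cases hx : x = 0
    · exact ⟨⊤, isCore_top, fun _ => hx⟩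
    · obtain ⟨N, h1, h2⟩ := exists_core_notMem hx
      exact ⟨N, h1, fun h => absurd h h2⟩
  choose L hL1 hL2 using hL
  have hne : ({κ : Cardinal.{u} | Cardinal.continuum.{u} ≤ κ ∧ Sep S κ}).Nonempty := by
    refine ⟨max (#G) Cardinal.continuum.{u}, le_max_right _ _, range L, ?_, ?_, ?_⟩
    · exact Cardinal.mk_range_le.trans (le_max_left _ _)
    · rintro N ⟨x, rfl⟩
      exact hL1 x
    · intro x _ h
      exact hL2 x (h (L x) ⟨x, rfl⟩)
  obtain ⟨ν, ⟨h1, h2⟩, h3⟩ := WellFounded.has_min Cardinal.lt_wf _ hne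
  exact ⟨ν, h1, h2, fun κ hκ hlt hs => h3 κ ⟨hκ, hs⟩ hlt⟩

/-- **(D1)**

Proof.  Take `ν` from `exists_least_sep` for `S = mulG G n` and `K = ν.ord.ToType`
(`Cardinal.mk_ord_toType`), infinite since `ℵ₀ ≤ 𝔠 ≤ ν`; `#(mulG G n) ≤ 2 ^ ν` by `Sep.mk_le`.
If `ν = 𝔠`: `oDense_of_continuum`, where `𝔠 ≤ #(mulG G n)` by
`H80Pseudo.continuum_le_of_infinite hG ⊤ hW (fun _ => univ_mem) _ n _` for the constant chain
`fun _ => univ` (see `H80Pseudo.continuum_le_mk`; the image of `univ` under `n • ·` is
`(mulG G n : Set G)`, infinite).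
If `𝔠 < ν`: `oDense_general` with `N₀ = ⊤` (`isCore_top`), `m = n`, `D = univ` (`GDense`: take
`a = x`), hypothesis from `exists_of_not_sep`; the index set `(n • ·) '' {a | a ∈ univ ∧ a ∈ ⊤}` is
`(mulG G n : Set G)`, or use `oDense_mono`. -/
theorem numbers1 [T2Space G] (hG : PseudocompactSp G) (n : ℕ) (hinf : Infinite (mulG G n)) :
    ∃ K : Type u, Infinite K ∧ ODense (mulG G n) K ∧ #(mulG G n) ≤ 2 ^ #K := by
  obtain ⟨ν, h1, h2, h3⟩ := exists_least_sep (mulG G n)
  have hK : #(ν.ord.ToType) = ν := Cardinal.mk_ord_toType ν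
  refine ⟨ν.ord.ToType, ?_, ?_, ?_⟩
  · rw [Cardinal.infinite_iff, hK]
    exact Cardinal.aleph0_le_continuum.trans h1
  · rcases h1.eq_or_lt with h4 | h4
    · apply oDense_of_continuum
      · have hW : Chn (fun _ : ℕ => (univ : Set G)) :=
          ⟨fun _ => trivial, fun _ _ _ => trivial, fun _ _ _ _ _ => trivial⟩
        have h5 := continuum_le_of_infinite hG ⊤ hW (fun _ => univ_mem) (by
          intro V hV x _
          refine ⟨x, trivial, hW.mem_core.2 fun _ => trivial, fun k => ?_⟩
          rw [sub_self]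
          exact mem_of_mem_nhds (hV k)) n (by
          have : (fun x : G => n • x) '' (hW.core : Set G) = (mulG G n : Set G) := by
            ext x
            constructor
            · rintro ⟨y, _, rfl⟩
              exact mem_mulG.2 ⟨y, rfl⟩
            · intro hx
              obtain ⟨y, hy⟩ := mem_mulG.1 hx
              exact ⟨y, hW.mem_core.2 fun _ => trivial, hy⟩
          rw [this]
          exact Set.infinite_coe_iff.1 hinf)
        have e : (fun x : G => n • x) '' ((⊤ : AddSubgroup G) : Set G) = (mulG G n : Set G) := by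
          ext x
          constructor
          · rintro ⟨y, _, rfl⟩
            exact mem_mulG.2 ⟨y, rfl⟩
          · intro hx
            obtain ⟨y, hy⟩ := mem_mulG.1 hx
            exact ⟨y, trivial, hy⟩
        rw [e] at h5
        exact h5
      · rw [hK, ← h4]
    · have h5 := oDense_general hG (isCore_top (G := G)) n ν
        (fun T hT hTc => exists_of_not_sep hG (isCore_top (G := G)) h4 h3 T hT hTc) univ
        (by
          intro V hV x hx
          refine ⟨x, trivial, hx, fun k => ?_⟩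
          rw [sub_self]
          exact mem_of_mem_nhds (hV k))
      apply oDense_mono h5
      apply Cardinal.mk_le_mk_of_subset
      rintro x ⟨y, _, rfl⟩
      exact mem_mulG.2 ⟨y, rfl⟩
  · rw [hK]
    exact h2.mk_le hG h1

end Pool.Agent.Lib.H43P
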