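import Mathlib
import Pool.Agent.Lib.H43P.D10

/-!
# H43P D11 (M): the numbers of the torsion-free part
-/

open Set Filter Topology Cardinal

universe u

namespace Pool.Agent.Lib.H43P

open Pool.Agent.H80Pseudo
open Pool.Agent.H8Q (ODense mulG mem_mulG)

variable {G : Type u} [AddCommGroup G] [TopologicalSpace G] [IsTopologicalAddGroup G]

/-- The rank part.  `ν` is not the number of separating cores of any `n G`, `n ≥ 1`, below `ν`.

Proof.  `K = ν.ord.ToType`.  If `ν = 𝔠`: `continuum_le_rank'` and `oDense_of_continuum`.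
Let `𝔠 < ν`, `B = AddSubgroup.closure (range b)`, `A j = B.comap (nsmulAddMonoidHom j.factorial)`;
every `g` is in some `A j` (see the proof of `H80Pseudo.continuum_le_rank`), so
`PseudocompactSp.exists_dense_layer` gives `j` and a core `N₀` with `GDense N₀ (A j)`.  Apply
`oDense_general` with `m = j.factorial`, `D = A j`; the hypothesis is `exists_of_not_sep` with
`m = j.factorial ≥ 1`.  The index set is contained in `B`, so `ODense B K` (`oDense_mono`,
`Cardinal.mk_le_mk_of_subset`).  `#B ≤ #(ι →₀ ℤ)` (`H80Pseudo.mk_closure_range_le`).  If `ι` is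
finite (or empty) then `B` is countable, a contradiction to `𝔠 ≤ #B` (`continuum_le_of_oDense`, `K` is
infinite).  If `ι` is infinite then `#(ι →₀ ℤ) ≤ #ι` (`Cardinal.mk_finsupp_lift_of_infinite`,
see `H80Pseudo.mk_finsupp_le`), and `oDense_mono`. -/
theorem oDense_rank [T2Space G] (hG : PseudocompactSp G) {ι : Type u} (b : ι → G)
    (ψ : G →+ (ι →₀ ℚ)) (hb : ∀ i, ψ (b i) = Finsupp.single i 1)
    (htor : ∀ g, ∃ n : ℕ, 0 < n ∧ n • g ∈ AddSubgroup.closure (range b))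
    (hinf : ∀ n : ℕ, 0 < n → Infinite (mulG G n)) {ν : Cardinal.{u}}
    (hν : Cardinal.continuum.{u} ≤ ν)
    (hn : ∀ n : ℕ, 0 < n → ∀ κ : Cardinal.{u}, Cardinal.continuum.{u} ≤ κ → κ < ν →
      ¬ Sep (mulG G n) κ) :
    ODense ι ν.ord.ToType := by
  classical
  have hmk : #ν.ord.ToType = ν := Cardinal.mk_ord_toType ν
  have hKinf : Infinite ν.ord.ToType := by
    rw [Cardinal.infinite_iff, hmk]
    exact Cardinal.aleph0_le_continuum.trans hν
  rcases hν.eq_or_lt with hν' | hν'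
  · exact oDense_of_continuum (continuum_le_rank' hG b ψ hb htor hinf) (by rw [hmk, ← hν'])
  · set B := AddSubgroup.closure (range b) with hB
    let A : ℕ → AddSubgroup G := fun n => B.comap (nsmulAddMonoidHom n.factorial : G →+ G)
    have hmemA : ∀ n g, g ∈ A n ↔ n.factorial • g ∈ B := fun n g => Iff.rfl
    have hA : ∀ g, ∃ n, g ∈ A n := by
      intro g
      obtain ⟨n, hn, hng⟩ := htor g
      refine ⟨n, ?_⟩
      rw [hmemA]
      obtain ⟨m, hm⟩ := Nat.dvd_factorial hn le_rfl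
      rw [hm, mul_comm, mul_smul]
      exact B.nsmul_mem hng m
    obtain ⟨j, W, hW, hWn, hD⟩ := hG.exists_dense_layer A hA
    have h0 : IsCore hW.core := ⟨W, hW, hWn, rfl⟩
    have hD' : GDense hW.core (A j : Set G) := hD
    have h1 := oDense_general hG h0 j.factorial ν
      (fun T hT hTc => exists_of_not_sep hG h0 hν' (hn j.factorial (Nat.factorial_pos j)) T hT hTc)
      (A j : Set G) hD'
    have hsub : ((fun x : G => j.factorial • x) '' {a | a ∈ (A j : Set G) ∧ a ∈ hW.core} : Set G) ⊆ (B : Set G) := by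
      rintro _ ⟨x, hx, rfl⟩
      exact hx.1
    have h2 : ODense B ν.ord.ToType := oDense_mono h1 (Cardinal.mk_le_mk_of_subset hsub)
    have h3 : #B ≤ #(ι →₀ ℤ) := mk_closure_range_le b
    have h4 : Cardinal.continuum.{u} ≤ #B := continuum_le_of_oDense h2
    have h5 : Cardinal.continuum.{u} ≤ #ι := by
      by_contra hlt
      rw [not_le] at hlt
      exact absurd (h4.trans h3) (not_le.2 (mk_finsupp_lt mk_int_le hlt))
    have hι : Infinite ι := by
      rw [Cardinal.infinite_iff]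
      exact Cardinal.aleph0_le_continuum.trans h5
    have h6 : #(ι →₀ ℤ) ≤ #ι := by
      rw [Cardinal.mk_finsupp_lift_of_infinite, Cardinal.lift_uzero, max_le_iff]
      refine ⟨le_rfl, ?_⟩
      have h7 : Cardinal.lift.{u} #ℤ ≤ Cardinal.aleph0.{u} := by
        rw [Cardinal.lift_le_aleph0]
        exact mk_int_le
      exact h7.trans (Cardinal.aleph0_le_continuum.trans h5)
    exact oDense_mono h2 (h3.trans h6)

/-- **(D2)**

Proof.  Let `ν` be the least cardinal `≥ 𝔠` such that `Sep (mulG G n) ν` for some `n ≥ 1`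
(nonempty by `exists_least_sep`, `Cardinal.lt_wf`), say for `n₂`; let `n₁ ≥ 1` minimise
`#(mulG G n)` (`WellFounded.min` on the set of these cardinals), `n₀ = n₁ * n₂`.  `mulG G n₀` is
contained in `mulG G n₁` and in `mulG G n₂`, so `#(mulG G n₀) ≤ #(mulG G n)` for all `n ≥ 1` and
`Sep (mulG G n₀) ν` (`Sep.mono`), hence `#(mulG G n₀) ≤ 2 ^ ν` (`Sep.mk_le`).
`K = ν.ord.ToType` (`Cardinal.mk_ord_toType`), infinite.  `ι`, `b`, `ψ` from `H80Pseudo.exists_psi`,
`oDense_rank`. -/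
theorem numbers2 [T2Space G] (hG : PseudocompactSp G)
    (hinf : ∀ n : ℕ, 0 < n → Infinite (mulG G n)) :
    ∃ n₀ : ℕ, 0 < n₀ ∧ (∀ n : ℕ, 0 < n → #(mulG G n₀) ≤ #(mulG G n)) ∧
      ∃ K : Type u, Infinite K ∧ #(mulG G n₀) ≤ 2 ^ #K ∧
        ∃ (ι : Type u) (b : ι → G) (ψ : G →+ (ι →₀ ℚ)), (∀ i, ψ (b i) = Finsupp.single i 1) ∧
          ODense ι K := by
  classical
  let P : Set Cardinal.{u} := {ν | Cardinal.continuum.{u} ≤ ν ∧ ∃ n : ℕ, 0 < n ∧ Sep (mulG G n) ν}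
  have hP : P.Nonempty := by
    obtain ⟨ν, h1, h2, -⟩ := exists_least_sep (mulG G 1)
    exact ⟨ν, h1, 1, one_pos, h2⟩
  let Q : Set Cardinal.{u} := {c | ∃ n : ℕ, 0 < n ∧ c = #(mulG G n)}
  have hQ : Q.Nonempty := ⟨_, 1, one_pos, rfl⟩
  obtain ⟨ν, hνP, hνmin⟩ := Cardinal.lt_wf.has_min P hP
  obtain ⟨c, hcQ, hcmin⟩ := Cardinal.lt_wf.has_min Q hQ
  obtain ⟨hν, n₂, hn₂, hsep⟩ := hνP
  obtain ⟨n₁, hn₁, hc⟩ := hcQ
  have hle1 : mulG G (n₁ * n₂) ≤ mulG G n₁ := by
    rintro _ ⟨g, rfl⟩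
    exact ⟨n₂ • g, (mul_smul n₁ n₂ g).symm⟩
  have hle2 : mulG G (n₁ * n₂) ≤ mulG G n₂ := by
    rintro _ ⟨g, rfl⟩
    refine ⟨n₁ • g, ?_⟩
    change n₂ • (n₁ • g) = (n₁ * n₂) • g
    rw [mul_comm, mul_smul]
  have hsep' : Sep (mulG G (n₁ * n₂)) ν := hsep.mono hle2
  refine ⟨n₁ * n₂, Nat.mul_pos hn₁ hn₂, ?_, ν.ord.ToType, ?_, ?_, ?_⟩
  · intro n hn
    have h1 : #(mulG G (n₁ * n₂)) ≤ #(mulG G n₁) := Cardinal.mk_le_mk_of_subset hle1
    refine h1.trans ?_
    rw [← hc]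
    exact not_lt.1 (hcmin _ ⟨n, hn, rfl⟩)
  · rw [Cardinal.infinite_iff, Cardinal.mk_ord_toType]
    exact Cardinal.aleph0_le_continuum.trans hν
  · rw [Cardinal.mk_ord_toType]
    exact hsep'.mk_le hG hν
  · obtain ⟨ι, b, ψ, hb, htor⟩ := exists_psi G
    exact ⟨ι, b, ψ, hb, oDense_rank hG b ψ hb htor hinf hν
      (fun n hn κ hκ hκν hs => hνmin κ ⟨hκ, n, hn, hs⟩ hκν)⟩

end Pool.Agent.Lib.H43P
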